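import Pool.Agent.Lib.MP_7b3c84_co.Tri

/-! A finite certificate for a regular triangulation of the cube. -/

namespace Pool.Agent.Lib.MP_7b3c84_co

open Matrix Finset

variable {n : ℕ}

theorem cert {κ : Type} [Fintype κ] [Nonempty κ] (τ : κ → Fin (n + 1) → Fin n → Bool)
    (a : κ → Fin (n + 1) → ℝ) (h : (Fin n → Bool) → ℝ)
    (ht : ∀ k i, row (τ k i) ⬝ᵥ a k = h (τ k i))
    (hs : ∀ k v, v ∉ Set.range (τ k) → row v ⬝ᵥ a k < h v)
    (hf : ∀ k j, (∃ c b, (∀ i, i ≠ j → τ k i c = b) ∧ τ k j c ≠ b) ∨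
      ∃ k', (∀ i, i ≠ j → τ k i ∈ Set.range (τ k')) ∧ τ k j ∉ Set.range (τ k')) :
    ∃ T, IsTriangulation n T ∧ T.card ≤ Fintype.card κ := by
  classical
  have hle : ∀ k v, row v ⬝ᵥ a k ≤ h v := fun k v => by
    by_cases hv : v ∈ Set.range (τ k)
    · obtain ⟨i, rfl⟩ := hv
      exact (ht k i).le
    · exact (hs k v hv).le
  have hg : ∀ k j, ∃ g : Fin (n + 1) → ℝ, (∀ i, i ≠ j → row (τ k i) ⬝ᵥ g = 0) ∧
      0 < row (τ k j) ⬝ᵥ g ∧ ((∀ v, 0 ≤ row v ⬝ᵥ g) ∨ ∃ k', g = a k - a k') := by
    intro k j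
    rcases hf k j with ⟨c, b, h1, h2⟩ | ⟨k', h1, h2⟩
    · have e : ∀ v : Fin n → Bool, row v ⬝ᵥ (if b then Pi.single 0 1 - Pi.single c.succ 1
          else Pi.single c.succ 1 : Fin (n + 1) → ℝ) = if v c = b then 0 else 1 := by
        intro v
        cases b <;> cases hv : v c <;> simp [dotProduct_sub, row, pt, hv]
      generalize (if b then Pi.single 0 1 - Pi.single c.succ 1
          else Pi.single c.succ 1 : Fin (n + 1) → ℝ) = g at e
      refine ⟨g, fun i hi => ?_, ?_, Or.inl fun v => ?_⟩ <;> rw [e]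
      · rw [if_pos (h1 i hi)]
      · rw [if_neg h2]; exact one_pos
      · split_ifs <;> norm_num
    · refine ⟨a k - a k', fun i hi => ?_, ?_, Or.inr ⟨k', rfl⟩⟩
      · obtain ⟨i', hi'⟩ := h1 i hi
        rw [dotProduct_sub, ht, ← hi', ht, sub_self]
      · rw [dotProduct_sub, ht]
        exact sub_pos.2 (hs k' _ h2)
  choose g hg0 hg1 hg2 using hg
  have hd : ∀ k, (mat row (τ k)).det ≠ 0 := by
    intro k h0
    have e : mat row (τ k) * (Matrix.of fun i j => g k j i) =
        diagonal fun j => row (τ k j) ⬝ᵥ g k j := by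
      ext i j
      change row (τ k i) ⬝ᵥ g k j = _
      by_cases hij : i = j
      · rw [hij, diagonal_apply_eq]
      · rw [diagonal_apply_ne _ hij, hg0 k j i hij]
    have := congrArg det e
    rw [det_mul, h0, zero_mul, det_diagonal] at this
    exact (Finset.prod_pos fun j _ => hg1 k j).ne this
  refine ⟨univ.image fun k => cell (τ k), ⟨?_, ?_, ?_, ?_, ?_⟩,
    Finset.card_image_le.trans (by simp)⟩
  · intro s hs
    obtain ⟨k, -, rfl⟩ := mem_image.1 hs
    rw [cell, Finset.card_image_of_injective _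
      (show Function.Injective fun i => pt (τ k i) from pt_inj.comp (inj_of_det (hd k)))]
    simp
  · intro s hs
    obtain ⟨k, -, rfl⟩ := mem_image.1 hs
    have := (affInd (hd k)).range
    rw [← coe_cell] at this
    exact this
  · intro s hs v hv i
    obtain ⟨k, -, rfl⟩ := mem_image.1 hs
    have hv' : v ∈ (cell (τ k) : Set (Fin n → ℝ)) := hv
    rw [coe_cell] at hv'
    obtain ⟨j, rfl⟩ := hv'
    simp only [pt]; split_ifs <;> simp
  · apply Set.Subset.antisymm
    · refine Set.iUnion₂_subset fun s hs => convexHull_min ?_ (convex_Icc 0 1)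
      obtain ⟨k, -, rfl⟩ := mem_image.1 hs
      rw [coe_cell]
      rintro _ ⟨j, rfl⟩
      constructor <;> intro i <;> simp only [pt] <;> split_ifs <;> simp
    · intro x hx
      have hw : ∀ v, 0 ≤ pw x v := fun v => Finset.prod_nonneg fun i _ => by
        split_ifs; exact hx.1 i; exact sub_nonneg.2 (hx.2 i)
      obtain ⟨y, hy⟩ : ∃ y, y = ∑ v, pw x v • row v := ⟨_, rfl⟩
      obtain ⟨k, -, hk⟩ := Finset.exists_max_image univ (fun k => y ⬝ᵥ a k) univ_nonempty
      have he := expand (hd k) y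
      have hl : ∀ j, 0 ≤ y ⬝ᵥ dual row (τ k) j := by
        intro j
        have e : y ⬝ᵥ g k j = (y ⬝ᵥ dual row (τ k) j) * (row (τ k j) ⬝ᵥ g k j) := by
          conv_lhs => rw [he]
          rw [sum_dotProduct, Finset.sum_eq_single j (fun i _ hi => by
            rw [smul_dotProduct, hg0 k j i hi, smul_zero]) (by simp), smul_dotProduct, smul_eq_mul]
        refine nonneg_of_mul_nonneg_left (e ▸ ?_) (hg1 k j)
        rcases hg2 k j with h1 | ⟨k', h1⟩
        · rw [hy, sum_dotProduct]
          exact Finset.sum_nonneg fun v _ => by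
            rw [smul_dotProduct]; exact mul_nonneg (hw v) (h1 v)
        · rw [h1, dotProduct_sub]
          exact sub_nonneg.2 (hk k' (mem_univ _))
      have he' := hy.symm.trans he
      rw [sum_row (fun v => v), sum_row, Fin.cons_inj, pw_sum] at he'
      refine Set.mem_iUnion₂.2 ⟨cell (τ k), mem_image.2 ⟨k, mem_univ _, rfl⟩, ?_⟩
      rw [coe_cell, mem_hull]
      refine ⟨_, hl, he'.1.symm, ?_⟩
      rw [← he'.2]
      funext j
      have := pw_one x j (fun b => if b then 1 else 0)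
      simpa [Finset.sum_apply, pt] using this
  · intro s hs' t ht'
    obtain ⟨k, -, rfl⟩ := mem_image.1 hs'
    obtain ⟨k', -, rfl⟩ := mem_image.1 ht'
    apply Set.Subset.antisymm
    · rintro x ⟨hx1, hx2⟩
      rw [coe_cell, mem_hull] at hx1 hx2
      obtain ⟨l, hl0, hl1, hl⟩ := hx1
      obtain ⟨m, hm0, hm1, hm⟩ := hx2
      have he : ∑ i, l i • row (τ k i) = ∑ i, m i • row (τ k' i) := by
        rw [sum_row, sum_row, hl1, hm1, hl, hm]
      have hf : ∀ i, m i ≠ 0 → τ k' i ∈ Set.range (τ k) := by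
        intro i hi
        by_contra hn
        have e1 : (∑ i, l i • row (τ k i)) ⬝ᵥ a k' ≤ (∑ i, l i • row (τ k i)) ⬝ᵥ a k := by
          rw [sum_dotProduct, sum_dotProduct]
          refine Finset.sum_le_sum fun r _ => ?_
          rw [smul_dotProduct, smul_dotProduct, smul_eq_mul, smul_eq_mul, ht]
          exact mul_le_mul_of_nonneg_left (hle _ _) (hl0 r)
        have e2 : (∑ i, m i • row (τ k' i)) ⬝ᵥ a k < (∑ i, m i • row (τ k' i)) ⬝ᵥ a k' := by
          rw [sum_dotProduct, sum_dotProduct]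
          refine Finset.sum_lt_sum (fun r _ => ?_) ⟨i, mem_univ i, ?_⟩ <;>
            rw [smul_dotProduct, smul_dotProduct, smul_eq_mul, smul_eq_mul, ht]
          · exact mul_le_mul_of_nonneg_left (hle _ _) (hm0 r)
          · exact mul_lt_mul_of_pos_left (hs _ _ hn) (lt_of_le_of_ne (hm0 i) (Ne.symm hi))
        rw [he] at e1
        linarith
      rw [← hm, ← Finset.sum_filter_of_ne (p := fun i => m i ≠ 0)
        (fun i _ hi h0 => hi (by rw [h0, zero_smul]))]
      refine (convex_convexHull ℝ _).sum_mem (fun i _ => hm0 i) ?_ fun i hi => ?_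
      · rw [Finset.sum_filter_ne_zero, hm1]
      · refine subset_convexHull ℝ _ ?_
        rw [coe_cell, coe_cell]
        obtain ⟨j, hj⟩ := hf i (Finset.mem_filter.1 hi).2
        exact ⟨⟨j, by simp only [hj]⟩, ⟨i, rfl⟩⟩
    · exact Set.subset_inter (convexHull_mono Set.inter_subset_left)
        (convexHull_mono Set.inter_subset_right)

end Pool.Agent.Lib.MP_7b3c84_co
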