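import Pool.Agent.Lib.MP_7b3c84_co.Eight.Cert

/-! A packed-integer checker for regular triangulations of the 8-cube. -/

namespace Pool.Agent.Lib.MP_7b3c84_co.Eight

open Matrix Finset

def sm (f : ℕ → ℕ) (n : ℕ) : ℕ := Nat.rec 0 (fun i s => Nat.add s (f i)) n

def al (p : ℕ → Bool) (n : ℕ) : Bool := Nat.rec true (fun i b => p i && b) n

def fld (r s w : ℕ) : ℕ := Nat.mod (Nat.shiftRight r s) w

def vx (r i : ℕ) : ℕ := fld r (Nat.mul 8 i) 256

def cf (r i : ℕ) : ℕ := fld r (Nat.add 72 (Nat.mul 32 i)) 4294967296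

def dd (r : ℕ) : ℕ := fld r 360 256

def nb (r j : ℕ) : ℕ := fld r (Nat.add 368 (Nat.mul 16 j)) 65536

def mk (r n : ℕ) : ℕ := Nat.rec 0 (fun i s => Nat.lor s (Nat.shiftLeft 1 (vx r i))) n

def dig (x u : ℕ) : ℕ := fld x (Nat.mul 40 u) 1099511627776

def rw1 (u i : ℕ) : ℕ := if i = 0 then 1 else (u.testBit (i - 1)).toNat

def xs (i : ℕ) : ℕ := sm (fun u => rw1 u i * 1099511627776 ^ u) 256

def top : ℕ := 549755813888 * xs 0

def zs : ℕ := 0xffffffffffffffffffffffffffffffff0000000000000000000000000000000000000000000000000000000000000000ffffffffffffffffffffffffffffffffffffffffffffffff0000000000000000ffffffffffffffff00000000000000000000000000000000ffffffffffffffff0000000000000000ffffffffffffffffffffffff00000000ffffffff00000000ffffffff00000000ffffffff0000000000000000ffffffff00000000ffffffff00000000ffffffff00000000ffffffffffff0000ffff0000ffff0000ffff0000ffff0000ffff0000ffff0000ffff00000000ffff0000ffff0000ffff0000ffff0000ffff0000ffff0000ffff0000ffff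ff00ff00ff00ff00ff00ff00ff00ff00ff00ff00ff00ff00ff00ff00ff00ff0000ff00ff00ff00ff00ff00ff00ff00ff00ff00ff00ff00ff00ff00ff00ff00fff0f0f0f0f0f0f0f0f0f0f0f0f0f0f0f0f0f0f0f0f0f0f0f0f0f0f0f0f0f0f0f00f0f0f0f0f0f0f0f0f0f0f0f0f0f0f0f0f0f0f0f0f0f0f0f0f0f0f0f0f0f0f0fcccccccccccccccccccccccccccccccccccccccccccccccccccccccccccccccc3333333333333333333333333333333333333333333333333333333333333333aaaaaaaaaaaaaaaaaaaaaaaaaaaaaaaaaaaaaaaaaaaaaaaaaaaaaaaaaaaaaaaa5555555555555555555555555555555555555555555555555555555555555555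

def zm (q : ℕ) : ℕ := fld zs (Nat.mul 256 q) (2 ^ 256)

def aa (r : ℕ) : ℕ := sm (fun i => Nat.mul (cf r i) (xs i)) 9

def tt (r : ℕ) : ℕ := sm (fun i => Nat.shiftLeft 1 (Nat.mul 40 (vx r i))) 9

def ok1 (hv r : ℕ) : Bool :=
  Nat.blt 0 (dd r) && Nat.ble (Nat.add (aa r) (xs 0)) (Nat.add (Nat.mul (dd r) hv) (tt r)) &&
  Nat.beq (Nat.land (Nat.sub (Nat.add (Nat.mul (dd r) hv) (tt r)) (Nat.add (aa r) (xs 0))) top) 0 &&
  al (fun i => Nat.beq (dig (aa r) (vx r i)) (dig (Nat.mul (dd r) hv) (vx r i))) 9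

def ok2 (N : ℕ) (R : ℕ → ℕ) (r : ℕ) : Bool :=
  al (fun i => Nat.blt (vx r i) (vx r (Nat.succ i))) 8 &&
  al (fun j => Nat.blt (nb r j) (Nat.add N 16) && Nat.beq (Nat.xor (mk r 9) (Nat.land (mk r 9)
    (cond (Nat.blt (nb r j) 16) (zm (nb r j)) (mk (R (Nat.sub (nb r j) 16)) 9))))
    (Nat.shiftLeft 1 (vx r j))) 9

def ok (N hv : ℕ) (R : ℕ → ℕ) (s n : ℕ) : Bool :=
  al (fun k => ok1 hv (R (Nat.add s k)) && ok2 N R (R (Nat.add s k))) n

inductive Tr
  | leaf (x : ℕ)
  | node (l r : Tr)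

/-- record `k`: 8 records of 512 bits per leaf -/
noncomputable def Tr.get (t : Tr) : ℕ → ℕ → ℕ :=
  Tr.rec (fun x _ k => fld x (Nat.mul 512 k) (2 ^ 512))
    (fun _ _ f g w k => cond (Nat.blt k w) (f (Nat.div w 2) k) (g (Nat.div w 2) (Nat.sub k w))) t

lemma sm_eq (f : ℕ → ℕ) (n : ℕ) : sm f n = ∑ i ∈ range n, f i := by
  induction n with
  | zero => rfl
  | succ n ih => rw [sum_range_succ, ← ih]; rfl

lemma al_spec {p : ℕ → Bool} {n : ℕ} (h : al p n = true) : ∀ i < n, p i = true := by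
  induction n with
  | zero => simp
  | succ n ih =>
    have h' : (p n && al p n) = true := h
    rw [Bool.and_eq_true] at h'
    intro i hi
    rcases Nat.lt_succ_iff_lt_or_eq.1 hi with h1 | rfl
    exacts [ih h'.2 i h1, h'.1]

lemma fld_lt (r s : ℕ) {w : ℕ} (hw : 0 < w) : fld r s w < w := Nat.mod_lt _ hw

lemma vx_lt (r i : ℕ) : vx r i < 256 := fld_lt _ _ (by norm_num)

lemma mk_bit (r n u : ℕ) : (mk r n).testBit u = true ↔ ∃ i < n, vx r i = u := by
  induction n with
  | zero => simp [mk]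
  | succ n ih =>
    have e : mk r (n + 1) = mk r n ||| 1 <<< vx r n := rfl
    rw [e, Nat.testBit_or, Bool.or_eq_true, ih, Nat.one_shiftLeft, Nat.testBit_two_pow,
      decide_eq_true_eq]
    exact ⟨fun h => h.elim (fun ⟨i, hi, e⟩ => ⟨i, by omega, e⟩) fun e => ⟨n, by omega, e⟩,
      fun ⟨i, hi, e⟩ => (Nat.lt_succ_iff_lt_or_eq.1 hi).imp (fun h => ⟨i, h, e⟩)
        fun h : i = n => h ▸ e⟩

lemma dig_eq (x u : ℕ) : dig x u = x / 1099511627776 ^ u % 1099511627776 := by
  change x >>> (40 * u) % _ = _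
  rw [Nat.shiftRight_eq_div_pow, pow_mul]
  norm_num

lemma lane (m : ℕ) : ∀ (f g : ℕ → ℕ) (D : ℕ), (∀ u < m, f u + dig D u < 1099511627776) →
    (∀ u < m, g u < 1099511627776) →
    ∑ u ∈ range m, f u * 1099511627776 ^ u + D = ∑ u ∈ range m, g u * 1099511627776 ^ u →
    ∀ u < m, f u + dig D u = g u := by
  induction m with
  | zero => simp
  | succ m ih =>
    intro f g D hf hg he
    have hs : ∀ u, dig (D / 1099511627776) u = dig D (u + 1) := fun u => by
      rw [dig_eq, dig_eq, Nat.div_div_eq_div_mul, pow_succ']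
    have h0 : dig D 0 = D % 1099511627776 := by rw [dig_eq]; simp
    simp only [sum_range_succ', pow_succ, ← mul_assoc, ← Finset.sum_mul, pow_zero, mul_one] at he
    have a1 := hf 0 (by omega)
    have a2 := hg 0 (by omega)
    intro u hu
    cases u with
    | zero => omega
    | succ u =>
      rw [← hs]
      refine ih (fun u => f (u + 1)) (fun u => g (u + 1)) _ (fun u hu => ?_)
        (fun u hu => hg _ (by omega)) (by omega) u (by omega)
      rw [hs]
      exact hf _ (by omega)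

lemma dig_vec {m : ℕ} {g : ℕ → ℕ} (hg : ∀ u < m, g u < 1099511627776) {u : ℕ} (hu : u < m) :
    dig (∑ u ∈ range m, g u * 1099511627776 ^ u) u = g u := by
  have := lane m (fun _ => 0) g (∑ u ∈ range m, g u * 1099511627776 ^ u) (fun u _ => by
    rw [zero_add]; exact fld_lt _ _ (by norm_num)) hg (by simp) u hu
  rwa [zero_add] at this

lemma rw1_le (u i : ℕ) : rw1 u i ≤ 1 := by
  unfold rw1
  split_ifs
  exacts [le_rfl, Bool.toNat_le _]

lemma top_bit : al (fun u => top.testBit (40 * u + 39)) 256 = true := by decide +kernel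

lemma zm_bit : al (fun q => al (fun u => (zm q).testBit u == (u.testBit (q / 2) ==
    decide (q % 2 = 1))) 256) 16 = true := by decide +kernel

lemma ok1_spec {hv r : ℕ} {H : ℕ → ℕ} (hH : ∀ u < 256, H u < 2 ^ 31)
    (hhv : hv = ∑ u ∈ range 256, H u * 1099511627776 ^ u) (h : ok1 hv r = true) :
    0 < dd r ∧ (∀ i < 9, ∑ c ∈ range 9, cf r c * rw1 (vx r i) c = dd r * H (vx r i)) ∧
    ∀ u < 256, (∀ i < 9, vx r i ≠ u) → ∑ c ∈ range 9, cf r c * rw1 u c < dd r * H u := by
  simp only [ok1, Bool.and_eq_true, Nat.blt_eq, Nat.ble_eq, Nat.beq_eq, Nat.add_eq, Nat.mul_eq,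
    Nat.sub_eq, Nat.land_eq] at h
  obtain ⟨⟨⟨h1, h2⟩, h3⟩, h4⟩ := h
  have eA : aa r = ∑ u ∈ range 256, (∑ c ∈ range 9, cf r c * rw1 u c) * 1099511627776 ^ u := by
    simp only [aa, xs, sm_eq, Nat.mul_eq, Finset.mul_sum, Finset.sum_mul, mul_assoc]
    exact Finset.sum_comm
  have eP : dd r * hv = ∑ u ∈ range 256, (dd r * H u) * 1099511627776 ^ u := by
    simp only [hhv, Finset.mul_sum, mul_assoc]
  have eT : tt r = ∑ u ∈ range 256,
      (∑ i ∈ range 9, if vx r i = u then 1 else 0) * 1099511627776 ^ u := by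
    simp only [tt, sm_eq, Finset.sum_mul]
    rw [Finset.sum_comm]
    refine Finset.sum_congr rfl fun i _ => ?_
    change 1 <<< (40 * vx r i) = _
    rw [Nat.one_shiftLeft, pow_mul, Finset.sum_eq_single (vx r i)]
    · norm_num
    · intro u _ hu; rw [if_neg hu.symm, zero_mul]
    · intro hu; exact absurd (mem_range.2 (vx_lt r i)) hu
  have eO : xs 0 = ∑ u ∈ range 256, 1 * 1099511627776 ^ u := sm_eq _ _
  have bA : ∀ u, ∑ c ∈ range 9, cf r c * rw1 u c ≤ 9 * 4294967296 := fun u => by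
    refine (Finset.sum_le_card_nsmul _ _ 4294967296 fun c _ => ?_).trans (by simp)
    have := Nat.mul_le_mul_left (cf r c) (rw1_le u c)
    have : cf r c < 4294967296 := fld_lt _ _ (by norm_num)
    omega
  have bP : ∀ u < 256, dd r * H u ≤ 256 * 2 ^ 31 := fun u hu =>
    Nat.mul_le_mul (fld_lt _ _ (by norm_num)).le (hH u hu).le
  have bT : ∀ u, (∑ i ∈ range 9, if vx r i = u then 1 else 0) ≤ 9 := fun u =>
    (Finset.sum_le_card_nsmul _ _ 1 fun c _ => by split_ifs <;> simp).trans (by simp)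
  refine ⟨h1, fun i hi => ?_, fun u hu hn => ?_⟩
  · have := al_spec h4 i hi
    rwa [Nat.beq_eq, eA, eP, dig_vec (fun u _ => by have := bA u; omega) (vx_lt r i),
      dig_vec (fun u hu => by have := bP u hu; omega) (vx_lt r i)] at this
  · generalize hD : dd r * hv + tt r - (aa r + xs 0) = D at h3
    have bD : ∀ u < 256, dig D u < 549755813888 := fun u hu => by
      have e := congrArg (fun x => x.testBit (40 * u + 39)) h3
      simp only [Nat.testBit_and, al_spec top_bit u hu, Bool.and_true, Nat.zero_testBit] at e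
      rw [Nat.testBit_eq_decide_div_mod_eq, decide_eq_false_iff_not, pow_add, pow_mul,
        ← Nat.div_div_eq_div_mul] at e
      rw [dig_eq]
      norm_num at e
      omega
    have := lane 256 (fun u => ∑ c ∈ range 9, cf r c * rw1 u c + 1)
      (fun u => dd r * H u + ∑ i ∈ range 9, if vx r i = u then 1 else 0) D
      (fun u hu => by have := bA u; have := bD u hu; omega)
      (fun u hu => by have := bP u hu; have := bT u; omega)
      (by simp only [add_mul, Finset.sum_add_distrib]; rw [← eA, ← eO, ← eP, ← eT]; omega) u hu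
    rw [Finset.sum_eq_zero (fun i hi => if_neg (hn i (mem_range.1 hi)))] at this
    omega

def bits (u : ℕ) : Fin 8 → Bool := fun c => u.testBit c

lemma bits_inj {u w : ℕ} (hu : u < 256) (hw : w < 256) (h : bits u = bits w) : u = w := by
  have e := congrArg Nat.ofBits h
  unfold bits at e
  rw [Nat.ofBits_testBit, Nat.ofBits_testBit] at e
  omega

lemma row_dot (u : ℕ) (c : ℕ → ℕ) (d : ℕ) : row (bits u) ⬝ᵥ (fun i : Fin 9 => (c i : ℝ) / d) =
    ((∑ i ∈ range 9, c i * rw1 u i : ℕ) : ℝ) / d := by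
  rw [Finset.sum_range, Nat.cast_sum, Finset.sum_div, dotProduct]
  refine Finset.sum_congr rfl fun i _ => ?_
  have : row (bits u) i = rw1 u i := by
    refine Fin.cases (by simp [row, rw1]) (fun i => ?_) i
    cases h : u.testBit i <;> simp [row, rw1, pt, bits, h]
  rw [this]
  push_cast
  ring

theorem sound {N hv : ℕ} {R : ℕ → ℕ} (hN : 0 < N)
    (h1 : al (fun u => Nat.blt (dig hv u) (2 ^ 31)) 256 = true)
    (h2 : hv = sm (fun u => dig hv u * 1099511627776 ^ u) 256)
    (h : ∀ k < N, ok1 hv (R k) = true ∧ ok2 N R (R k) = true) :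
    ∃ T, IsTriangulation 8 T ∧ T.card ≤ N := by
  have : Nonempty (Fin N) := ⟨⟨0, hN⟩⟩
  have s1 := fun k : Fin N => ok1_spec (fun u hu => Nat.blt_eq.mp (al_spec h1 u hu))
    (h2.trans (sm_eq _ _)) (h k k.2).1
  have hb : ∀ u < 256, Nat.ofBits (bits u) = u := fun u hu => by
    unfold bits; rw [Nat.ofBits_testBit]; omega
  have hm : ∀ (r u : ℕ), u < 256 → (bits u ∈ Set.range (fun i : Fin 9 => bits (vx r i)) ↔
      (mk r 9).testBit u = true) := fun r u hu => by
    rw [mk_bit]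
    exact ⟨fun ⟨i, e⟩ => ⟨i, i.2, bits_inj (vx_lt _ _) hu e⟩,
      fun ⟨i, hi, e⟩ => ⟨⟨i, hi⟩, congrArg bits e⟩⟩
  have := cert (fun (k : Fin N) (i : Fin 9) => bits (vx (R k) i))
    (fun k i => (cf (R k) i : ℝ) / dd (R k)) (fun v => dig hv (Nat.ofBits v))
    (fun k i => ?_) (fun k v hn => ?_) (fun k j => ?_)
  · rwa [Fintype.card_fin] at this
  · have hd : (0 : ℝ) < dd (R k) := by exact_mod_cast (s1 k).1
    rw [row_dot, (s1 k).2.1 i i.2, hb _ (vx_lt _ _), Nat.cast_mul, mul_div_cancel_left₀ _ hd.ne']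
  · have hd : (0 : ℝ) < dd (R k) := by exact_mod_cast (s1 k).1
    have hu : Nat.ofBits v < 256 := Nat.ofBits_lt_two_pow v
    have e : bits (Nat.ofBits v) = v := funext fun c => by simp [bits]
    have := (s1 k).2.2 _ hu fun i hi e' => hn ⟨⟨i, hi⟩, (congrArg bits e').trans e⟩
    conv_lhs => rw [← e]
    rw [row_dot, div_lt_iff₀' hd]
    exact_mod_cast this
  · have g := (h k k.2).2
    rw [ok2, Bool.and_eq_true] at g
    have hmono : StrictMono fun i : Fin 9 => vx (R k) i :=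
      Fin.strictMono_iff_lt_succ.2 fun i => Nat.blt_eq.mp (al_spec g.1 i i.2)
    have g2 := al_spec g.2 j j.2
    rw [Bool.and_eq_true, Nat.blt_eq, Nat.beq_eq] at g2
    obtain ⟨g1, g2⟩ := g2
    generalize nb (R k) j = q at g1 g2
    have key : ∀ m, Nat.xor (mk (R k) 9) (Nat.land (mk (R k) 9) m) = Nat.shiftLeft 1 (vx (R k) j) →
        (∀ i : Fin 9, i ≠ j → m.testBit (vx (R k) i) = true) ∧ m.testBit (vx (R k) j) = false := by
      intro m e
      have e' : ∀ i : Fin 9, (!m.testBit (vx (R k) i)) = decide (vx (R k) j = vx (R k) i) := by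
        intro i
        have := congrArg (fun x => x.testBit (vx (R k) i))
          (show mk (R k) 9 ^^^ (mk (R k) 9 &&& m) = 1 <<< vx (R k) j from e)
        simpa [Nat.one_shiftLeft, Nat.testBit_two_pow, (mk_bit _ _ _).2 ⟨i, i.2, rfl⟩] using this
      exact ⟨fun i hi => by simpa [hmono.injective.ne hi.symm] using e' i, by simpa using e' j⟩
    obtain ⟨k1, k2⟩ := key _ g2
    by_cases hq : q < 16
    · rw [Nat.blt_eq.mpr hq, cond_true] at k1 k2
      have z := fun i : Fin 9 => al_spec (al_spec zm_bit q hq) _ (vx_lt (R k) i)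
      refine Or.inl ⟨⟨q / 2, by omega⟩, decide (q % 2 = 1), fun i hi => ?_, ?_⟩
      · simpa [k1 i hi, bits] using z i
      · simpa [k2, bits] using z j
    · rw [Bool.eq_false_iff.2 (mt Nat.blt_eq.mp hq), cond_false] at k1 k2
      have hq' : q - 16 < N := by change q < N + 16 at g1; omega
      exact Or.inr ⟨⟨q - 16, hq'⟩, fun i hi => (hm _ _ (vx_lt _ _)).2 (k1 i hi),
        fun e => by simpa [k2] using ((hm _ _ (vx_lt _ _)).1 e).symm.trans k2⟩

lemma ok_spec {N hv : ℕ} {R : ℕ → ℕ} {s n : ℕ} (h : ok N hv R s n = true) (k : ℕ) (h1 : s ≤ k)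
    (h2 : k < s + n) : ok1 hv (R k) = true ∧ ok2 N R (R k) = true := by
  have := al_spec h (k - s) (by omega)
  rwa [Bool.and_eq_true, Nat.add_eq, Nat.add_sub_cancel' h1] at this

end Pool.Agent.Lib.MP_7b3c84_co.Eight
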