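import Pool.Agent.Lib.MP_7b3c84_co.Eight.Cells0
import Pool.Agent.Lib.MP_7b3c84_co.Eight.Cells1

/-! Heights and cells of a regular triangulation of the 8-cube. -/

namespace Pool.Agent.Lib.MP_7b3c84_co.Eight

def hv : ℕ := 0x5ef4270000560b4b000055c22400004cdf7a000055b23a00004ccfe500004cae5e000040284f000055ffed00004d1c3d00004c81260000402a0900004cc4ca00004028470000405a3c000033c859000055b60e00004cd3a400004c22b000004067a000004d13500000405f0300004075540000371a9800004cc8870000405809000040364500003753a9000040527000003753db00003690d100002a614f000055d5ee00004cf2e600004c1da300004004fc00004caca70000402ca60000402aa0000037116000004ce7bd000040469f0000405bc5000037410c0000400f6100003750e60000375bb700002aa39000004cb4d600004028560000405fc2000033da7500004065d90000374ee400003758eb00002a86d600003fe9040000367c95000037212c00002ac0ac000033d00200002ab3c500002a8762000020e792000055f5a700004c2f2000004cc90a000040698800004cbef3000040171f00004041170000370d4600004cb65600004087770000400d6500003690900000402808000036847200003771d400002aa94400004ccdae00004009900000402d5a0000374b320000405a0f000033cb2c000036858c00002a7a6f00004021770000374c71000033c8ef00002aaa47000036fe4000002aba3200002a9f53000021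9d8200004cf0260000406d7200004027790000368bee00004038d10000373ef1000033c1e400002aa154000040489e000033cbca000037589e00002aa499000037129b00002a8f1900002aed4d000021d213000040450700003731ab000037437b00002ab80e00003780c700002aecc600002a68d50000214d87000037257900002a6bb900002aa86b000021a46400002ab92100002136a80000219a910000151b47000055da8500004cf76800004cbb0500004049f300004ca066000040253e00003febde0000371f8600004cec3e00004014c30000405103000037420e0000401c8300003749a1000037506500002ab8a100004cad3f000040312c0000400d2600003743ec00004074fb0000378186000033dc4b00002ae3bc0000403d40000033db100000373c5e00002aa8fe000037515200002a805400002b053e00002158c900004cc92c00004021e40000404abb0000368087000040274d000033b8e400003715e000002a7c180000405cb10000374657000033e4ef00002ac408000036844800002ad74400002a9875000021a0ab00004020fd0000370629000036861200002ab0a3000036e16500002a672600002aba270000216392000037232100002a9da500002aa4860000219d1f00002ac9720000214990000021000000001541b900004ce2290000405d4f0000405809000033dc7700004025d20000372b8e0000372bca00002a90b70000403f6e00003695e70000374fdf00002ace69000033b72800002a908e00002a79f6000020e7df000040578b00003688fa000037378900002a885b0000375b0f00002abfcd00002abcae0000214327000037379200002ac98300002ab0580000219db400002a83f6000020f325000020f64d00001534cd000040059d0000375b20000037457a00002ac3d10000372d9100002ab88f00002aa5f40000218c09000036e59700002ab3c700002acdf6000021bb7600002a8d49000020ec82000021d6a1000014dbba000033d57800002a915e00002aaf1700002194af00002a8e13000021ae7f000021a5d3000015283900002aaf20000020eb9d000020f399000014f3aa0000216dd500001539cc0000153057000008b8d5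

noncomputable def tr : Tr :=
  (.node (.node (.node (.node (.node (.node t0
  t1)
  (.node t2
  t3))
  (.node (.node t4
  t5)
  (.node t6
  t7)))
  (.node (.node (.node t8
  t9)
  (.node t10
  t11))
  (.node (.node t12
  t13)
  (.node t14
  t15))))
  (.node (.node (.node (.node t16
  t17)
  (.node t18
  t19))
  (.node (.node t20
  t21)
  (.node t22
  t23)))
  (.node (.node (.node t24
  t25)
  (.node t26
  t27))
  (.node (.node t28
  t29)
  (.node t30
  t31)))))
  (.node (.node (.node (.node (.node t32
  t33)
  (.node t34
  t35))
  (.leaf 0))
  (.leaf 0))
  (.leaf 0)))

noncomputable def rc (k : ℕ) : ℕ := tr.get 8192 k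

end Pool.Agent.Lib.MP_7b3c84_co.Eight
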