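import Pool.Agent.Lib.MP_7b3c84_co.Eight.Data

namespace Pool.Agent.Lib.MP_7b3c84_co.Eight

lemma b1536 : ok 8992 hv rc 1536 128 = true := by decide +kernel

lemma b1664 : ok 8992 hv rc 1664 128 = true := by decide +kernel

lemma b1792 : ok 8992 hv rc 1792 128 = true := by decide +kernel

lemma b1920 : ok 8992 hv rc 1920 128 = true := by decide +kernel

lemma b2048 : ok 8992 hv rc 2048 128 = true := by decide +kernel

lemma b2176 : ok 8992 hv rc 2176 128 = true := by decide +kernel

lemma b2304 : ok 8992 hv rc 2304 128 = true := by decide +kernel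

lemma b2432 : ok 8992 hv rc 2432 128 = true := by decide +kernel

lemma b2560 : ok 8992 hv rc 2560 128 = true := by decide +kernel

lemma b2688 : ok 8992 hv rc 2688 128 = true := by decide +kernel

lemma b2816 : ok 8992 hv rc 2816 128 = true := by decide +kernel

lemma b2944 : ok 8992 hv rc 2944 128 = true := by decide +kernel

lemma r1 (k : ℕ) (h1 : 1536 ≤ k) (h2 : k < 3072) :
    ok1 hv (rc k) = true ∧ ok2 8992 rc (rc k) = true := by
  by_cases c1536 : k < 1664
  · exact ok_spec b1536 k (by omega) (by omega)
  by_cases c1664 : k < 1792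
  · exact ok_spec b1664 k (by omega) (by omega)
  by_cases c1792 : k < 1920
  · exact ok_spec b1792 k (by omega) (by omega)
  by_cases c1920 : k < 2048
  · exact ok_spec b1920 k (by omega) (by omega)
  by_cases c2048 : k < 2176
  · exact ok_spec b2048 k (by omega) (by omega)
  by_cases c2176 : k < 2304
  · exact ok_spec b2176 k (by omega) (by omega)
  by_cases c2304 : k < 2432
  · exact ok_spec b2304 k (by omega) (by omega)
  by_cases c2432 : k < 2560
  · exact ok_spec b2432 k (by omega) (by omega)
  by_cases c2560 : k < 2688
  · exact ok_spec b2560 k (by omega) (by omega)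
  by_cases c2688 : k < 2816
  · exact ok_spec b2688 k (by omega) (by omega)
  by_cases c2816 : k < 2944
  · exact ok_spec b2816 k (by omega) (by omega)
  exact ok_spec b2944 k (by omega) (by omega)

end Pool.Agent.Lib.MP_7b3c84_co.Eight
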