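import Pool.Agent.Lib.MP_7b3c84_co.Eight.Data

namespace Pool.Agent.Lib.MP_7b3c84_co.Eight

lemma b3072 : ok 8992 hv rc 3072 128 = true := by decide +kernel

lemma b3200 : ok 8992 hv rc 3200 128 = true := by decide +kernel

lemma b3328 : ok 8992 hv rc 3328 128 = true := by decide +kernel

lemma b3456 : ok 8992 hv rc 3456 128 = true := by decide +kernel

lemma b3584 : ok 8992 hv rc 3584 128 = true := by decide +kernel

lemma b3712 : ok 8992 hv rc 3712 128 = true := by decide +kernel

lemma b3840 : ok 8992 hv rc 3840 128 = true := by decide +kernel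

lemma b3968 : ok 8992 hv rc 3968 128 = true := by decide +kernel

lemma b4096 : ok 8992 hv rc 4096 128 = true := by decide +kernel

lemma b4224 : ok 8992 hv rc 4224 128 = true := by decide +kernel

lemma b4352 : ok 8992 hv rc 4352 128 = true := by decide +kernel

lemma b4480 : ok 8992 hv rc 4480 128 = true := by decide +kernel

lemma r2 (k : ℕ) (h1 : 3072 ≤ k) (h2 : k < 4608) :
    ok1 hv (rc k) = true ∧ ok2 8992 rc (rc k) = true := by
  by_cases c3072 : k < 3200
  · exact ok_spec b3072 k (by omega) (by omega)
  by_cases c3200 : k < 3328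
  · exact ok_spec b3200 k (by omega) (by omega)
  by_cases c3328 : k < 3456
  · exact ok_spec b3328 k (by omega) (by omega)
  by_cases c3456 : k < 3584
  · exact ok_spec b3456 k (by omega) (by omega)
  by_cases c3584 : k < 3712
  · exact ok_spec b3584 k (by omega) (by omega)
  by_cases c3712 : k < 3840
  · exact ok_spec b3712 k (by omega) (by omega)
  by_cases c3840 : k < 3968
  · exact ok_spec b3840 k (by omega) (by omega)
  by_cases c3968 : k < 4096
  · exact ok_spec b3968 k (by omega) (by omega)
  by_cases c4096 : k < 4224
  · exact ok_spec b4096 k (by omega) (by omega)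
  by_cases c4224 : k < 4352
  · exact ok_spec b4224 k (by omega) (by omega)
  by_cases c4352 : k < 4480
  · exact ok_spec b4352 k (by omega) (by omega)
  exact ok_spec b4480 k (by omega) (by omega)

end Pool.Agent.Lib.MP_7b3c84_co.Eight
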