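import Pool.Agent.Lib.MP_7b3c84_co.Eight.Data

namespace Pool.Agent.Lib.MP_7b3c84_co.Eight

lemma b4608 : ok 8992 hv rc 4608 128 = true := by decide +kernel

lemma b4736 : ok 8992 hv rc 4736 128 = true := by decide +kernel

lemma b4864 : ok 8992 hv rc 4864 128 = true := by decide +kernel

lemma b4992 : ok 8992 hv rc 4992 128 = true := by decide +kernel

lemma b5120 : ok 8992 hv rc 5120 128 = true := by decide +kernel

lemma b5248 : ok 8992 hv rc 5248 128 = true := by decide +kernel

lemma b5376 : ok 8992 hv rc 5376 128 = true := by decide +kernel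

lemma b5504 : ok 8992 hv rc 5504 128 = true := by decide +kernel

lemma b5632 : ok 8992 hv rc 5632 128 = true := by decide +kernel

lemma b5760 : ok 8992 hv rc 5760 128 = true := by decide +kernel

lemma b5888 : ok 8992 hv rc 5888 128 = true := by decide +kernel

lemma b6016 : ok 8992 hv rc 6016 128 = true := by decide +kernel

lemma r3 (k : ℕ) (h1 : 4608 ≤ k) (h2 : k < 6144) :
    ok1 hv (rc k) = true ∧ ok2 8992 rc (rc k) = true := by
  by_cases c4608 : k < 4736
  · exact ok_spec b4608 k (by omega) (by omega)
  by_cases c4736 : k < 4864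
  · exact ok_spec b4736 k (by omega) (by omega)
  by_cases c4864 : k < 4992
  · exact ok_spec b4864 k (by omega) (by omega)
  by_cases c4992 : k < 5120
  · exact ok_spec b4992 k (by omega) (by omega)
  by_cases c5120 : k < 5248
  · exact ok_spec b5120 k (by omega) (by omega)
  by_cases c5248 : k < 5376
  · exact ok_spec b5248 k (by omega) (by omega)
  by_cases c5376 : k < 5504
  · exact ok_spec b5376 k (by omega) (by omega)
  by_cases c5504 : k < 5632
  · exact ok_spec b5504 k (by omega) (by omega)
  by_cases c5632 : k < 5760
  · exact ok_spec b5632 k (by omega) (by omega)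
  by_cases c5760 : k < 5888
  · exact ok_spec b5760 k (by omega) (by omega)
  by_cases c5888 : k < 6016
  · exact ok_spec b5888 k (by omega) (by omega)
  exact ok_spec b6016 k (by omega) (by omega)

end Pool.Agent.Lib.MP_7b3c84_co.Eight
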