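import Pool.Agent.Lib.MP_7b3c84_co.Eight.Data

namespace Pool.Agent.Lib.MP_7b3c84_co.Eight

lemma b6144 : ok 8992 hv rc 6144 128 = true := by decide +kernel

lemma b6272 : ok 8992 hv rc 6272 128 = true := by decide +kernel

lemma b6400 : ok 8992 hv rc 6400 128 = true := by decide +kernel

lemma b6528 : ok 8992 hv rc 6528 128 = true := by decide +kernel

lemma b6656 : ok 8992 hv rc 6656 128 = true := by decide +kernel

lemma b6784 : ok 8992 hv rc 6784 128 = true := by decide +kernel

lemma b6912 : ok 8992 hv rc 6912 128 = true := by decide +kernel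

lemma b7040 : ok 8992 hv rc 7040 128 = true := by decide +kernel

lemma b7168 : ok 8992 hv rc 7168 128 = true := by decide +kernel

lemma b7296 : ok 8992 hv rc 7296 128 = true := by decide +kernel

lemma b7424 : ok 8992 hv rc 7424 128 = true := by decide +kernel

lemma b7552 : ok 8992 hv rc 7552 128 = true := by decide +kernel

lemma r4 (k : ℕ) (h1 : 6144 ≤ k) (h2 : k < 7680) :
    ok1 hv (rc k) = true ∧ ok2 8992 rc (rc k) = true := by
  by_cases c6144 : k < 6272
  · exact ok_spec b6144 k (by omega) (by omega)
  by_cases c6272 : k < 6400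
  · exact ok_spec b6272 k (by omega) (by omega)
  by_cases c6400 : k < 6528
  · exact ok_spec b6400 k (by omega) (by omega)
  by_cases c6528 : k < 6656
  · exact ok_spec b6528 k (by omega) (by omega)
  by_cases c6656 : k < 6784
  · exact ok_spec b6656 k (by omega) (by omega)
  by_cases c6784 : k < 6912
  · exact ok_spec b6784 k (by omega) (by omega)
  by_cases c6912 : k < 7040
  · exact ok_spec b6912 k (by omega) (by omega)
  by_cases c7040 : k < 7168
  · exact ok_spec b7040 k (by omega) (by omega)
  by_cases c7168 : k < 7296
  · exact ok_spec b7168 k (by omega) (by omega)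
  by_cases c7296 : k < 7424
  · exact ok_spec b7296 k (by omega) (by omega)
  by_cases c7424 : k < 7552
  · exact ok_spec b7424 k (by omega) (by omega)
  exact ok_spec b7552 k (by omega) (by omega)

end Pool.Agent.Lib.MP_7b3c84_co.Eight
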