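import Pool.Agent.Lib.MP_7b3c84_co.Eight.Data

namespace Pool.Agent.Lib.MP_7b3c84_co.Eight

lemma b7680 : ok 8992 hv rc 7680 128 = true := by decide +kernel

lemma b7808 : ok 8992 hv rc 7808 128 = true := by decide +kernel

lemma b7936 : ok 8992 hv rc 7936 128 = true := by decide +kernel

lemma b8064 : ok 8992 hv rc 8064 128 = true := by decide +kernel

lemma b8192 : ok 8992 hv rc 8192 128 = true := by decide +kernel

lemma b8320 : ok 8992 hv rc 8320 128 = true := by decide +kernel

lemma b8448 : ok 8992 hv rc 8448 128 = true := by decide +kernel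

lemma b8576 : ok 8992 hv rc 8576 128 = true := by decide +kernel

lemma b8704 : ok 8992 hv rc 8704 128 = true := by decide +kernel

lemma b8832 : ok 8992 hv rc 8832 128 = true := by decide +kernel

lemma b8960 : ok 8992 hv rc 8960 32 = true := by decide +kernel

lemma r5 (k : ℕ) (h1 : 7680 ≤ k) (h2 : k < 8992) :
    ok1 hv (rc k) = true ∧ ok2 8992 rc (rc k) = true := by
  by_cases c7680 : k < 7808
  · exact ok_spec b7680 k (by omega) (by omega)
  by_cases c7808 : k < 7936
  · exact ok_spec b7808 k (by omega) (by omega)
  by_cases c7936 : k < 8064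
  · exact ok_spec b7936 k (by omega) (by omega)
  by_cases c8064 : k < 8192
  · exact ok_spec b8064 k (by omega) (by omega)
  by_cases c8192 : k < 8320
  · exact ok_spec b8192 k (by omega) (by omega)
  by_cases c8320 : k < 8448
  · exact ok_spec b8320 k (by omega) (by omega)
  by_cases c8448 : k < 8576
  · exact ok_spec b8448 k (by omega) (by omega)
  by_cases c8576 : k < 8704
  · exact ok_spec b8576 k (by omega) (by omega)
  by_cases c8704 : k < 8832
  · exact ok_spec b8704 k (by omega) (by omega)
  by_cases c8832 : k < 8960
  · exact ok_spec b8832 k (by omega) (by omega)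
  exact ok_spec b8960 k (by omega) (by omega)

end Pool.Agent.Lib.MP_7b3c84_co.Eight
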