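import Pool.Agent.Lib.MP_7b3c84_co.Eight.Run0
import Pool.Agent.Lib.MP_7b3c84_co.Eight.Run1
import Pool.Agent.Lib.MP_7b3c84_co.Eight.Run2
import Pool.Agent.Lib.MP_7b3c84_co.Eight.Run3
import Pool.Agent.Lib.MP_7b3c84_co.Eight.Run4
import Pool.Agent.Lib.MP_7b3c84_co.Eight.Run5

namespace Pool.Agent.Lib.MP_7b3c84_co.Eight

theorem eight : ∃ T, IsTriangulation 8 T ∧ T.card ≤ 8992 := by
  refine sound (hv := hv) (R := rc) (by norm_num) (by decide +kernel) (by decide +kernel)
    fun k hk => ?_
  by_cases c0 : k < 1536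
  · exact r0 k (by omega) (by omega)
  by_cases c1 : k < 3072
  · exact r1 k (by omega) (by omega)
  by_cases c2 : k < 4608
  · exact r2 k (by omega) (by omega)
  by_cases c3 : k < 6144
  · exact r3 k (by omega) (by omega)
  by_cases c4 : k < 7680
  · exact r4 k (by omega) (by omega)
  exact r5 k (by omega) (by omega)

end Pool.Agent.Lib.MP_7b3c84_co.Eight
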