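import Pool.Agent.Lib.MP_7b3c84_co.Eight.Data

namespace Pool.Agent.Lib.MP_7b3c84_co.Eight

lemma b0 : ok 8992 hv rc 0 128 = true := by decide +kernel

lemma b128 : ok 8992 hv rc 128 128 = true := by decide +kernel

lemma b256 : ok 8992 hv rc 256 128 = true := by decide +kernel

lemma b384 : ok 8992 hv rc 384 128 = true := by decide +kernel

lemma b512 : ok 8992 hv rc 512 128 = true := by decide +kernel

lemma b640 : ok 8992 hv rc 640 128 = true := by decide +kernel

lemma b768 : ok 8992 hv rc 768 128 = true := by decide +kernel

lemma b896 : ok 8992 hv rc 896 128 = true := by decide +kernel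

lemma b1024 : ok 8992 hv rc 1024 128 = true := by decide +kernel

lemma b1152 : ok 8992 hv rc 1152 128 = true := by decide +kernel

lemma b1280 : ok 8992 hv rc 1280 128 = true := by decide +kernel

lemma b1408 : ok 8992 hv rc 1408 128 = true := by decide +kernel

lemma r0 (k : ℕ) (h1 : 0 ≤ k) (h2 : k < 1536) :
    ok1 hv (rc k) = true ∧ ok2 8992 rc (rc k) = true := by
  by_cases c0 : k < 128
  · exact ok_spec b0 k (by omega) (by omega)
  by_cases c128 : k < 256
  · exact ok_spec b128 k (by omega) (by omega)
  by_cases c256 : k < 384
  · exact ok_spec b256 k (by omega) (by omega)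
  by_cases c384 : k < 512
  · exact ok_spec b384 k (by omega) (by omega)
  by_cases c512 : k < 640
  · exact ok_spec b512 k (by omega) (by omega)
  by_cases c640 : k < 768
  · exact ok_spec b640 k (by omega) (by omega)
  by_cases c768 : k < 896
  · exact ok_spec b768 k (by omega) (by omega)
  by_cases c896 : k < 1024
  · exact ok_spec b896 k (by omega) (by omega)
  by_cases c1024 : k < 1152
  · exact ok_spec b1024 k (by omega) (by omega)
  by_cases c1152 : k < 1280
  · exact ok_spec b1152 k (by omega) (by omega)
  by_cases c1280 : k < 1408
  · exact ok_spec b1280 k (by omega) (by omega)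
  exact ok_spec b1408 k (by omega) (by omega)

end Pool.Agent.Lib.MP_7b3c84_co.Eight
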